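import Pool.Agent.Q152.CC.Stm2

set_option autoImplicit false

/-! Project CC (helper152): few `α` with a large sum over some interval (`S_EX2`). -/

namespace Pool.Agent.Q190.CC.E2

open Finset MeasureTheory Pool.Agent.Y692.QS Pool.Agent.Q152.CC

/-! ### the symbol has norm at most one -/

lemma norm_toC_le {α : Ei} (h : nr α ≤ 1) : ‖toC α‖ ≤ 1 := by
  have h1 := toC_normSq α
  rw [Complex.normSq_eq_norm_sq] at h1
  have h2 : ((nr α : ℤ) : ℝ) ≤ 1 := by exact_mod_cast h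
  rw [← h1] at h2
  have h3 := norm_nonneg (toC α)
  nlinarith

lemma nr_zero' : nr (0 : Ei) ≤ 1 := by decide
lemma nr_one' : nr (1 : Ei) ≤ 1 := by decide
lemma nr_w' : nr w ≤ 1 := by decide
lemma nr_w2' : nr (w ^ 2) ≤ 1 := by decide

lemma nr_kp (q : ℕ) (α : Ei) : nr (kp q α) ≤ 1 := by
  unfold kp
  split_ifs with h1 h2
  · unfold kq cu
    split_ifs
    · exact nr_one'
    · exact nr_w'
    · exact nr_w2'
    · exact nr_zero'
  · unfold k3 f3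
    split_ifs
    · exact nr_one'
    · exact nr_w'
    · exact nr_w2'
  · exact nr_one'

lemma norm_xi (α : Ei) (n : ℕ) : ‖xi α n‖ ≤ 1 := by
  unfold xi
  split_ifs
  · unfold kn
    rw [map_prod, norm_prod]
    apply prod_le_one
    · intro q _
      exact norm_nonneg _
    · intro q _
      rw [map_pow, norm_pow]
      exact pow_le_one₀ (norm_nonneg _) (norm_toC_le (nr_kp q α))
  · simp

/-! ### sums over differences -/

lemma diag1 (h : ℕ) (F : ℤ → ℝ) (hF : ∀ x, 0 ≤ F x) :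
    (h : ℝ) * ∑ x ∈ range (2 * h), F (-(h : ℤ) + x) ≤
      ∑ s ∈ range (2 * h), ∑ s' ∈ range (2 * h), F ((s : ℤ) - s') := by
  have h1 : (h : ℝ) * ∑ x ∈ range (2 * h), F (-(h : ℤ) + x) =
      ∑ t ∈ range (2 * h) ×ˢ range h, F (-(h : ℤ) + t.1) := by
    rw [sum_product, mul_sum]
    apply sum_congr rfl
    intro x _
    show (h : ℝ) * F (-(h : ℤ) + x) = ∑ _y ∈ range h, F (-(h : ℤ) + x)
    rw [sum_const, card_range, nsmul_eq_mul]
  rw [h1]
  let e : ℕ × ℕ → ℕ × ℕ := fun t => (t.2 + (t.1 - h), t.2 + (h - t.1))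
  have hinj : ∀ t ∈ range (2 * h) ×ˢ range h, ∀ t' ∈ range (2 * h) ×ˢ range h,
      e t = e t' → t = t' := by
    intro t _ t' _ ht
    have h2 : t.2 + (t.1 - h) = t'.2 + (t'.1 - h) := congrArg Prod.fst ht
    have h3 : t.2 + (h - t.1) = t'.2 + (h - t'.1) := congrArg Prod.snd ht
    apply Prod.ext <;> omega
  have h2 : ∑ t ∈ range (2 * h) ×ˢ range h, F (-(h : ℤ) + t.1) =
      ∑ p ∈ (range (2 * h) ×ˢ range h).image e, F ((p.1 : ℤ) - p.2) := by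
    rw [sum_image hinj]
    apply sum_congr rfl
    intro t _
    have h3 : (((e t).1 : ℕ) : ℤ) - ((e t).2 : ℕ) = -(h : ℤ) + t.1 := by
      show ((t.2 + (t.1 - h) : ℕ) : ℤ) - ((t.2 + (h - t.1) : ℕ) : ℤ) = _
      omega
    rw [h3]
  rw [h2, ← sum_product (range (2 * h)) (range (2 * h)) fun p => F ((p.1 : ℤ) - p.2)]
  apply sum_le_sum_of_subset_of_nonneg
  · intro p hp
    rw [mem_image] at hp
    obtain ⟨t, ht, rfl⟩ := hp
    rw [mem_product, mem_range, mem_range] at ht ⊢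
    show t.2 + (t.1 - h) < 2 * h ∧ t.2 + (h - t.1) < 2 * h
    omega
  · intro p _ _
    exact hF _

lemma diag2 (h : ℕ) (Φ : ℤ → ℤ → ℝ) (hΦ : ∀ x y, 0 ≤ Φ x y) :
    (h : ℝ) ^ 2 * ∑ x ∈ range (2 * h), ∑ y ∈ range (2 * h), Φ (-(h : ℤ) + x) (-(h : ℤ) + y) ≤
    ∑ s ∈ range (2 * h), ∑ s' ∈ range (2 * h), ∑ t ∈ range (2 * h), ∑ t' ∈ range (2 * h),
      Φ ((s : ℤ) - s') ((t : ℤ) - t') := by
  have h1 := diag1 h (fun x => ∑ t ∈ range (2 * h), ∑ t' ∈ range (2 * h), Φ x ((t : ℤ) - t'))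
    (fun x => sum_nonneg fun _ _ => sum_nonneg fun _ _ => hΦ _ _)
  refine le_trans ?_ h1
  have h2 : ∀ x : ℤ, (h : ℝ) * ∑ y ∈ range (2 * h), Φ x (-(h : ℤ) + y) ≤
      ∑ t ∈ range (2 * h), ∑ t' ∈ range (2 * h), Φ x ((t : ℤ) - t') :=
    fun x => diag1 h (Φ x) (hΦ x)
  calc (h : ℝ) ^ 2 * ∑ x ∈ range (2 * h), ∑ y ∈ range (2 * h), Φ (-(h : ℤ) + x) (-(h : ℤ) + y)
      = h * ∑ x ∈ range (2 * h), (h * ∑ y ∈ range (2 * h), Φ (-(h : ℤ) + x) (-(h : ℤ) + y)) := by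
        rw [← mul_sum]
        ring
    _ ≤ _ := by
        apply mul_le_mul_of_nonneg_left _ (Nat.cast_nonneg h)
        apply sum_le_sum
        intro x _
        exact h2 _

/-! ### the second moment over the box -/

lemma second (mo2 : S_MO2) (ms : S_MS) {η : ℝ} (hη : 0 < η) : ∃ C : ℝ, 0 < C ∧
    ∀ h R : ℕ, 1 ≤ h → 1 ≤ R → ∀ c : ℕ → ℂ, (∀ n, ‖c n‖ ≤ 1) → ∀ M N : ℕ, 1 ≤ N → M + N ≤ R →
    ∑ x ∈ range (2 * h), ∑ y ∈ range (2 * h),
      ‖∑ n ∈ Ioc M (M + N), c n * xi (al (-(h : ℤ) + x) (-(h : ℤ) + y)) n‖ ^ 2 ≤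
      C * ((h : ℝ) ^ 2 * R + (R : ℝ) ^ (4 + 2 * η)) := by
  obtain ⟨C0, hC0, hmo⟩ := mo2 1 η hη
  refine ⟨320 + 4 * C0, by positivity, ?_⟩
  intro h R hh hR c hc M N hN hMN
  have h1 := hmo R (2 * h) (Ioc M (M + N)) c
    (fun n hn => ⟨by have := (mem_Ioc.1 hn).1; omega, by have := (mem_Ioc.1 hn).2; omega⟩)
    (fun n _ => hc n)
  have h2 := ms M N hN (fun n => ‖c n‖) (fun n => ⟨norm_nonneg _, hc n⟩)
  have hcard : (Ioc M (M + N)).card = N := by rw [Nat.card_Ioc]; omega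
  rw [hcard, Nat.mul_one] at h1
  have hd := diag2 h (fun x y => ‖∑ n ∈ Ioc M (M + N), c n * xi (al x y) n‖ ^ 2)
    (fun x y => by positivity)
  have hh0 : (0 : ℝ) < h := by exact_mod_cast hh
  have hR0 : (0 : ℝ) < R := by exact_mod_cast hR
  have hNR : (N : ℝ) ≤ R := by
    have : N ≤ R := by omega
    exact_mod_cast this
  have h3 : (R : ℝ) ^ (2 * ((1 : ℕ) : ℝ) * (1 + η)) * (N : ℝ) ^ 2 ≤ (R : ℝ) ^ (4 + 2 * η) := by
    calc (R : ℝ) ^ (2 * ((1 : ℕ) : ℝ) * (1 + η)) * (N : ℝ) ^ 2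
        ≤ (R : ℝ) ^ (2 * ((1 : ℕ) : ℝ) * (1 + η)) * (R : ℝ) ^ 2 := by gcongr
      _ = (R : ℝ) ^ (4 + 2 * η) := by
          rw [← Real.rpow_natCast (R : ℝ) 2, ← Real.rpow_add hR0]
          congr 1
          push_cast
          ring
  set S : ℝ := ∑ x ∈ range (2 * h), ∑ y ∈ range (2 * h),
    ‖∑ n ∈ Ioc M (M + N), c n * xi (al (-(h : ℤ) + x) (-(h : ℤ) + y)) n‖ ^ 2 with hS
  have h4 : (h : ℝ) ^ 2 * S ≤ (h : ℝ) ^ 2 * (320 * ((h : ℝ) ^ 2 * R) +
      4 * C0 * (R : ℝ) ^ (4 + 2 * η)) := by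
    refine hd.trans (h1.trans ?_)
    have h5 : (((2 * h : ℕ) : ℝ)) ^ 4 * (∫ ω, ‖∑ n ∈ Ioc M (M + N),
        ((‖c n‖ : ℝ) : ℂ) * rc ω n‖ ^ 2 ∂rm) ≤ (((2 * h : ℕ) : ℝ)) ^ 4 * (20 * R) := by
      apply mul_le_mul_of_nonneg_left _ (by positivity)
      refine h2.trans ?_
      linarith
    have h6 : C0 * ((2 * h : ℕ) : ℝ) ^ 2 * (R : ℝ) ^ (2 * ((1 : ℕ) : ℝ) * (1 + η)) * (N : ℝ) ^ 2 ≤
        C0 * ((2 * h : ℕ) : ℝ) ^ 2 * (R : ℝ) ^ (4 + 2 * η) := by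
      rw [mul_assoc (C0 * ((2 * h : ℕ) : ℝ) ^ 2)]
      exact mul_le_mul_of_nonneg_left h3 (by positivity)
    refine (add_le_add h5 h6).trans (le_of_eq ?_)
    push_cast
    ring
  have h7 : S ≤ 320 * ((h : ℝ) ^ 2 * R) + 4 * C0 * (R : ℝ) ^ (4 + 2 * η) :=
    le_of_mul_le_mul_left h4 (by positivity)
  refine h7.trans ?_
  have h8 : 0 ≤ (h : ℝ) ^ 2 * R := by positivity
  have h9 : 0 ≤ (R : ℝ) ^ (4 + 2 * η) := by positivity
  nlinarith

lemma markov {L : ℕ} (F : ℕ → ℕ → ℝ) (hF : ∀ x y, 0 ≤ F x y) {V W : ℝ}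
    (p : ℕ × ℕ → Prop) [DecidablePred p]
    (hp : ∀ t : ℕ × ℕ, p t → V ≤ F t.1 t.2)
    (hW : ∑ x ∈ range L, ∑ y ∈ range L, F x y ≤ W) :
    (((range L ×ˢ range L).filter p).card : ℝ) * V ≤ W := by
  have h1 : ∑ t ∈ (range L ×ˢ range L).filter p, V ≤
      ∑ t ∈ (range L ×ˢ range L).filter p, F t.1 t.2 := by
    apply sum_le_sum
    intro t ht
    rw [mem_filter] at ht
    exact hp t ht.2
  have h2 : ∑ t ∈ (range L ×ˢ range L).filter p, F t.1 t.2 ≤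
      ∑ t ∈ range L ×ˢ range L, F t.1 t.2 :=
    sum_le_sum_of_subset_of_nonneg (filter_subset _ _) fun t _ _ => hF _ _
  rw [sum_const, nsmul_eq_mul] at h1
  rw [sum_product] at h2
  exact h1.trans (h2.trans hW)

/-- a large sum over the grid interval -/
def Grid (h g : ℕ) (c : ℕ → ℂ) (i j : ℕ) (t : ℕ × ℕ) : Prop :=
  (g : ℝ) < ‖∑ n ∈ Ioc (g * i) (g * j), c n * xi (al (-(h : ℤ) + t.1) (-(h : ℤ) + t.2)) n‖

lemma grid_of {R g : ℕ} (hg : 1 ≤ g) {f : ℕ → ℂ} (hf : ∀ n, ‖f n‖ ≤ 1) {M N : ℕ}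
    (hMN : M + N ≤ R) (hl : 3 * (g : ℝ) < ‖∑ n ∈ Ioc M (M + N), f n‖) :
    ∃ i j : ℕ, i ≤ R / g ∧ j ≤ R / g ∧ (g : ℝ) < ‖∑ n ∈ Ioc (g * i) (g * j), f n‖ := by
  have hb : ∀ u v : ℕ, ‖∑ n ∈ Ioc u v, f n‖ ≤ ((v - u : ℕ) : ℝ) := by
    intro u v
    calc ‖∑ n ∈ Ioc u v, f n‖ ≤ ∑ n ∈ Ioc u v, (1 : ℝ) := norm_sum_le_of_le _ fun n _ => hf n
      _ = _ := by rw [sum_const, Nat.card_Ioc, nsmul_eq_mul, mul_one]
  set i := (M + g - 1) / g with hi
  set j := (M + N) / g with hj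
  have hi1 : g * i ≤ M + g - 1 := Nat.mul_div_le _ _
  have hi2 : M + g - 1 < g * i + g := by
    have := Nat.lt_mul_div_succ (M + g - 1) (show 0 < g by omega)
    rw [← hi] at this
    calc _ < g * (i + 1) := this
      _ = _ := by ring
  have hj1 : g * j ≤ M + N := Nat.mul_div_le _ _
  have hj2 : M + N < g * j + g := by
    have := Nat.lt_mul_div_succ (M + N) (show 0 < g by omega)
    rw [← hj] at this
    calc _ < g * (j + 1) := this
      _ = _ := by ring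
  have hg0 : (1 : ℝ) ≤ g := by exact_mod_cast hg
  by_cases hij : i ≤ j
  · have hgij : g * i ≤ g * j := Nat.mul_le_mul_left g hij
    have hjR : j ≤ R / g := Nat.div_le_div_right hMN
    refine ⟨i, j, hij.trans hjR, hjR, ?_⟩
    have h1 : ∑ n ∈ Ioc M (M + N), f n = ∑ n ∈ Ioc M (g * i), f n +
        ∑ n ∈ Ioc (g * i) (g * j), f n + ∑ n ∈ Ioc (g * j) (M + N), f n := by
      rw [sum_Ioc_consecutive _ (show M ≤ g * i by omega) hgij,
        sum_Ioc_consecutive _ (show M ≤ g * j by omega) hj1]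
    have h2 := hb M (g * i)
    have h3 := hb (g * j) (M + N)
    have h4 : ((g * i - M : ℕ) : ℝ) ≤ g := by
      have : g * i - M ≤ g := by omega
      exact_mod_cast this
    have h5 : ((M + N - g * j : ℕ) : ℝ) ≤ g := by
      have : M + N - g * j ≤ g := by omega
      exact_mod_cast this
    have h6 : ‖∑ n ∈ Ioc M (M + N), f n‖ ≤ ‖∑ n ∈ Ioc M (g * i), f n‖ +
        ‖∑ n ∈ Ioc (g * i) (g * j), f n‖ + ‖∑ n ∈ Ioc (g * j) (M + N), f n‖ := by
      rw [h1]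
      exact norm_add₃_le
    linarith
  · exfalso
    have h1 : g * (j + 1) ≤ g * i := Nat.mul_le_mul_left g (by omega)
    have h2 : N ≤ g := by
      have : g * j + g ≤ g * i := by
        calc g * j + g = g * (j + 1) := by ring
          _ ≤ _ := h1
      omega
    have h3 := hb M (M + N)
    rw [Nat.add_sub_cancel_left] at h3
    have h4 : (N : ℝ) ≤ g := by exact_mod_cast h2
    linarith

theorem ex2 (mo2 : S_MO2) (ms : S_MS) : S_EX2 := by
  classical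
  intro η hη
  obtain ⟨C, hC, hsec⟩ := second mo2 ms hη
  refine ⟨4 * C, by positivity, ?_⟩
  intro h R g hh hg hgR c hc
  have hR : 1 ≤ R := hg.trans hgR
  have hg0 : (0 : ℝ) < g := by exact_mod_cast hg
  set E : ℝ := (h : ℝ) ^ 2 * R + (R : ℝ) ^ (4 + 2 * η) with hE
  have hE0 : 0 ≤ E := by positivity
  set J : Finset (ℕ × ℕ) := range (R / g + 1) ×ˢ range (R / g + 1) with hJ
  have hone : ∀ s ∈ J, (((range (2 * h) ×ˢ range (2 * h)).filter
      (Grid h g c s.1 s.2)).card : ℝ) ≤ C * E / (g : ℝ) ^ 2 := by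
    intro s hs
    rw [hJ, mem_product, mem_range, mem_range] at hs
    by_cases hij : g * s.1 < g * s.2
    · have hgj : g * s.2 ≤ R := by
        calc g * s.2 ≤ g * (R / g) := Nat.mul_le_mul_left g (by omega)
          _ ≤ R := Nat.mul_div_le _ _
      have h1 := hsec h R hh hR c hc (g * s.1) (g * s.2 - g * s.1) (by omega) (by omega)
      rw [show g * s.1 + (g * s.2 - g * s.1) = g * s.2 by omega] at h1
      rw [le_div_iff₀ (by positivity)]
      refine markov (fun x y => ‖∑ n ∈ Ioc (g * s.1) (g * s.2),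
        c n * xi (al (-(h : ℤ) + x) (-(h : ℤ) + y)) n‖ ^ 2) (fun x y => by positivity)
        (Grid h g c s.1 s.2) ?_ h1
      intro t ht
      unfold Grid at ht
      exact pow_le_pow_left₀ hg0.le ht.le 2
    · have h0 : (range (2 * h) ×ˢ range (2 * h)).filter (Grid h g c s.1 s.2) = ∅ := by
        rw [filter_eq_empty_iff]
        intro t _ ht
        unfold Grid at ht
        rw [Ioc_eq_empty hij, sum_empty, norm_zero] at ht
        linarith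
      rw [h0, card_empty, Nat.cast_zero]
      positivity
  have hsub : (((range (2 * h)) ×ˢ (range (2 * h))).filter fun t : ℕ × ℕ => ∃ M N : ℕ, M + N ≤ R ∧
      3 * (g : ℝ) < ‖∑ n ∈ Ioc M (M + N), c n * xi (al (-(h : ℤ) + t.1) (-(h : ℤ) + t.2)) n‖) ⊆
      J.biUnion fun s => (range (2 * h) ×ˢ range (2 * h)).filter (Grid h g c s.1 s.2) := by
    intro t ht
    rw [mem_filter] at ht
    obtain ⟨ht1, M, N, hMN, hl⟩ := ht
    have hf : ∀ n, ‖c n * xi (al (-(h : ℤ) + t.1) (-(h : ℤ) + t.2)) n‖ ≤ 1 := by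
      intro n
      rw [norm_mul]
      exact mul_le_one₀ (hc n) (norm_nonneg _) (norm_xi _ _)
    obtain ⟨i, j, hi, hj, hij⟩ := grid_of hg hf hMN hl
    rw [mem_biUnion]
    refine ⟨(i, j), ?_, ?_⟩
    · rw [hJ, mem_product, mem_range, mem_range]
      exact ⟨Nat.lt_succ_of_le hi, Nat.lt_succ_of_le hj⟩
    · rw [mem_filter]
      exact ⟨ht1, hij⟩
  have h1 : ((((range (2 * h)) ×ˢ (range (2 * h))).filter fun t : ℕ × ℕ => ∃ M N : ℕ,
      M + N ≤ R ∧ 3 * (g : ℝ) <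
      ‖∑ n ∈ Ioc M (M + N), c n * xi (al (-(h : ℤ) + t.1) (-(h : ℤ) + t.2)) n‖).card : ℝ) ≤
      ∑ s ∈ J, (((range (2 * h) ×ˢ range (2 * h)).filter (Grid h g c s.1 s.2)).card : ℝ) := by
    have := (card_le_card hsub).trans card_biUnion_le
    exact_mod_cast this
  refine h1.trans ((sum_le_sum hone).trans ?_)
  rw [sum_const, nsmul_eq_mul]
  have hJc : (J.card : ℝ) ≤ 4 * (R : ℝ) ^ 2 / (g : ℝ) ^ 2 := by
    rw [hJ, card_product, card_range]
    have h2 : ((R / g + 1 : ℕ) : ℝ) ≤ 2 * R / g := by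
      rw [le_div_iff₀ hg0]
      have h3 : (R / g + 1) * g ≤ 2 * R := by
        have := Nat.div_mul_le_self R g
        calc (R / g + 1) * g = R / g * g + g := by ring
          _ ≤ R + R := by omega
          _ = 2 * R := by ring
      exact_mod_cast h3
    push_cast at h2 ⊢
    calc ((R / g : ℕ) + 1 : ℝ) * ((R / g : ℕ) + 1) ≤ (2 * R / g) * (2 * R / g) := by gcongr
      _ = _ := by ring
  calc (J.card : ℝ) * (C * E / (g : ℝ) ^ 2) ≤ 4 * (R : ℝ) ^ 2 / (g : ℝ) ^ 2 *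
        (C * E / (g : ℝ) ^ 2) := by gcongr
    _ = _ := by
      rw [div_mul_div_comm]
      congr 1
      · ring
      · ring

end Pool.Agent.Q190.CC.E2
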