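import Pool.Agent.Q152.CC.Stm2

set_option autoImplicit false

/-! Project CC (helper152): the exceptional set at one scale (`S_EX1`). -/

namespace Pool.Agent.Q190.CC

open Finset MeasureTheory Pool.Agent.Y692.QS Pool.Agent.Q152.CC

open Classical in
/-- all characters modulo `q` (`q ≥ 1`) -/
noncomputable def chs (q : ℕ) : Finset (DirichletCharacter ℂ q) :=
  if h : q = 0 then ∅ else
    haveI : NeZero q := ⟨h⟩
    (Set.toFinite (Set.univ : Set (DirichletCharacter ℂ q))).toFinset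

lemma mem_chs {q : ℕ} (hq : 1 ≤ q) (χ : DirichletCharacter ℂ q) : χ ∈ chs q := by
  unfold chs
  rw [dif_neg (by omega)]
  simp

lemma card_chs {q : ℕ} : (chs q).card ≤ q := by
  unfold chs
  split_ifs with h
  · simp
  · have : NeZero q := ⟨h⟩
    rw [← Set.ncard_eq_toFinset_card, Set.ncard_univ]
    rw [DirichletCharacter.card_eq_totient_of_hasEnoughRootsOfUnity]
    exact Nat.totient_le q

lemma markov {L : ℕ} (F : ℕ → ℕ → ℝ) (hF : ∀ x y, 0 ≤ F x y) {V W : ℝ}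
    (p : ℕ × ℕ → Prop) [DecidablePred p]
    (hp : ∀ t : ℕ × ℕ, p t → V ≤ F t.1 t.2)
    (hW : ∑ x ∈ range L, ∑ y ∈ range L, F x y ≤ W) :
    (((range L ×ˢ range L).filter p).card : ℝ) * V ≤ W := by
  have h1 : ∑ t ∈ (range L ×ˢ range L).filter p, V ≤
      ∑ t ∈ (range L ×ˢ range L).filter p, F t.1 t.2 := by
    apply sum_le_sum
    intro t ht
    rw [mem_filter] at ht
    exact hp t ht.2
  have h2 : ∑ t ∈ (range L ×ˢ range L).filter p, F t.1 t.2 ≤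
      ∑ t ∈ range L ×ˢ range L, F t.1 t.2 :=
    sum_le_sum_of_subset_of_nonneg (filter_subset _ _) fun t _ _ => hF _ _
  rw [sum_const, nsmul_eq_mul] at h1
  rw [sum_product] at h2
  exact h1.trans (h2.trans hW)

/-- the violations for one choice of the parameters -/
def Viol (ε : ℝ) (R : ℕ) (a b : ℤ) (q : ℕ) (ψ : DirichletCharacter ℂ q) (M N : ℕ) (t : ℕ × ℕ) :
    Prop :=
  (R : ℝ) ^ ε * Real.sqrt N <
    ‖∑ n ∈ Ioc M (M + N), xi (al (a + t.1) (b + t.2)) n * ψ (n : ZMod q)‖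

open Classical in
lemma one_set (mom : S_MOM) {k : ℕ} {ε D : ℝ} (hD : 0 < D)
    (hmb : ∀ M N R : ℕ, 1 ≤ N → M + N ≤ R → ∀ c : ℕ → ℝ, (∀ n, 0 ≤ c n ∧ c n ≤ 1) →
      ∫ ω, ‖∑ n ∈ Ioc M (M + N), ((c n : ℝ) : ℂ) * rc ω n‖ ^ (2 * k) ∂rm ≤
        (D * (R : ℝ) ^ ε * N) ^ k)
    (hε : 0 < ε) {R L : ℕ} (hR : 6 ≤ R) (hL : R ^ (4 * k + 1) ≤ L) (a b : ℤ) {q : ℕ}
    (ψ : DirichletCharacter ℂ q) {M N : ℕ} (hN : 1 ≤ N) (hMN : M + N ≤ R) :
    (((range L ×ˢ range L).filter (Viol ε R a b q ψ M N)).card : ℝ) ≤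
      (L : ℝ) ^ 2 * (D ^ k + 1) / ((R : ℝ) ^ ε) ^ k := by
  have hc : ∀ n : ℕ, ‖ψ (n : ZMod q)‖ ≤ 1 := fun n => DirichletCharacter.norm_le_one ψ _
  have hR1 : (1 : ℝ) ≤ R := by
    have : 1 ≤ R := by omega
    exact_mod_cast this
  have hN1 : (1 : ℝ) ≤ N := by exact_mod_cast hN
  have hRe : (1 : ℝ) ≤ (R : ℝ) ^ ε := Real.one_le_rpow hR1 hε.le
  have h1 := mom k R (Ioc M (M + N)) (fun n => ψ (n : ZMod q))
    (fun n hn => ⟨by have := (mem_Ioc.1 hn).1; omega, by have := (mem_Ioc.1 hn).2; omega⟩)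
    (fun n _ => hc n) a b L
  have h2 := hmb M N R hN hMN (fun n => ‖ψ (n : ZMod q)‖) (fun n => ⟨norm_nonneg _, hc n⟩)
  have hcard : (Ioc M (M + N)).card = N := by rw [Nat.card_Ioc]; omega
  rw [hcard] at h1
  have hL0 : (0 : ℝ) ≤ L := Nat.cast_nonneg L
  have h3 : 6 * (L : ℝ) * (R : ℝ) ^ (2 * k) * (N : ℝ) ^ (2 * k) ≤ (L : ℝ) ^ 2 := by
    have hNR : (N : ℝ) ≤ R := by
      have : N ≤ R := by omega
      exact_mod_cast this
    have h6 : (6 : ℝ) ≤ R := by exact_mod_cast hR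
    have hL' : (R : ℝ) ^ (4 * k + 1) ≤ L := by exact_mod_cast hL
    calc 6 * (L : ℝ) * (R : ℝ) ^ (2 * k) * (N : ℝ) ^ (2 * k)
        ≤ R * (L : ℝ) * (R : ℝ) ^ (2 * k) * (R : ℝ) ^ (2 * k) := by gcongr
      _ = (L : ℝ) * (R : ℝ) ^ (4 * k + 1) := by
          rw [show 4 * k + 1 = 2 * k + 2 * k + 1 by ring, pow_succ, pow_add]
          ring
      _ ≤ (L : ℝ) * L := by gcongr
      _ = (L : ℝ) ^ 2 := by ring
  have hX1 : (1 : ℝ) ≤ ((R : ℝ) ^ ε * N) ^ k := by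
    apply one_le_pow₀
    nlinarith
  have h4 : ∑ x ∈ range L, ∑ y ∈ range L,
      ‖∑ n ∈ Ioc M (M + N), ψ (n : ZMod q) * xi (al (a + x) (b + y)) n‖ ^ (2 * k) ≤
        (L : ℝ) ^ 2 * (D ^ k + 1) * ((R : ℝ) ^ ε * N) ^ k := by
    refine h1.trans ?_
    have h5 : (L : ℝ) ^ 2 * (∫ ω, ‖∑ n ∈ Ioc M (M + N),
        ((‖ψ (n : ZMod q)‖ : ℝ) : ℂ) * rc ω n‖ ^ (2 * k) ∂rm) ≤
        (L : ℝ) ^ 2 * (D * (R : ℝ) ^ ε * N) ^ k := by
      exact mul_le_mul_of_nonneg_left h2 (by positivity)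
    have h6 : (D * (R : ℝ) ^ ε * N) ^ k = D ^ k * ((R : ℝ) ^ ε * N) ^ k := by
      rw [← mul_pow]
      congr 1
      ring
    rw [h6] at h5
    have h7 : (L : ℝ) ^ 2 * 1 ≤ (L : ℝ) ^ 2 * ((R : ℝ) ^ ε * N) ^ k :=
      mul_le_mul_of_nonneg_left hX1 (by positivity)
    calc _ ≤ (L : ℝ) ^ 2 * (D ^ k * ((R : ℝ) ^ ε * N) ^ k) + (L : ℝ) ^ 2 := add_le_add h5 h3
      _ ≤ (L : ℝ) ^ 2 * (D ^ k * ((R : ℝ) ^ ε * N) ^ k) +
          (L : ℝ) ^ 2 * ((R : ℝ) ^ ε * N) ^ k := by linarith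
      _ = _ := by ring
  have h8 := markov (L := L) (V := ((R : ℝ) ^ ε) ^ k * ((R : ℝ) ^ ε * N) ^ k)
    (fun x y => ‖∑ n ∈ Ioc M (M + N), ψ (n : ZMod q) * xi (al (a + x) (b + y)) n‖ ^ (2 * k))
    (fun x y => by positivity) (Viol ε R a b q ψ M N) (by
      intro t ht
      unfold Viol at ht
      have h9 : ∑ n ∈ Ioc M (M + N), ψ (n : ZMod q) * xi (al (a + t.1) (b + t.2)) n =
          ∑ n ∈ Ioc M (M + N), xi (al (a + t.1) (b + t.2)) n * ψ (n : ZMod q) :=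
        sum_congr rfl fun n _ => mul_comm _ _
      show _ ≤ ‖∑ n ∈ Ioc M (M + N), ψ (n : ZMod q) * xi (al (a + t.1) (b + t.2)) n‖ ^ (2 * k)
      rw [h9]
      have h10 : ((R : ℝ) ^ ε * Real.sqrt N) ^ (2 * k) ≤
          ‖∑ n ∈ Ioc M (M + N), xi (al (a + t.1) (b + t.2)) n * ψ (n : ZMod q)‖ ^ (2 * k) :=
        pow_le_pow_left₀ (by positivity) ht.le _
      refine le_trans (le_of_eq ?_) h10
      have h12 : ((R : ℝ) ^ ε * Real.sqrt N) ^ 2 = (R : ℝ) ^ ε * ((R : ℝ) ^ ε * N) := by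
        rw [mul_pow, Real.sq_sqrt (by positivity)]
        ring
      rw [pow_mul, h12, ← mul_pow]) h4
  have hA : (0 : ℝ) < ((R : ℝ) ^ ε * N) ^ k := by linarith
  have hB : (0 : ℝ) < ((R : ℝ) ^ ε) ^ k := by positivity
  rw [le_div_iff₀ hB]
  have h11 : (((range L ×ˢ range L).filter (Viol ε R a b q ψ M N)).card : ℝ) *
      ((R : ℝ) ^ ε) ^ k * ((R : ℝ) ^ ε * N) ^ k ≤
      (L : ℝ) ^ 2 * (D ^ k + 1) * ((R : ℝ) ^ ε * N) ^ k := by
    rw [mul_assoc]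
    exact h8
  exact le_of_mul_le_mul_right h11 hA

theorem ex1 (mom : S_MOM) (mb : S_MB) : S_EX1 := by
  classical
  intro B ε hε
  obtain ⟨k, hk⟩ := exists_nat_ge (((B : ℝ) + 6) / ε)
  have hkε : (B : ℝ) + 6 ≤ ε * k := by
    rw [div_le_iff₀ hε] at hk
    linarith
  have hk1 : 1 ≤ k := by
    by_contra hcon
    have hk0 : k = 0 := by omega
    rw [hk0] at hkε
    have : (0 : ℝ) ≤ B := Nat.cast_nonneg B
    simp at hkε
    linarith
  obtain ⟨D, hD, hmb⟩ := mb k hk1 ε hε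
  obtain ⟨R1, hR1⟩ := exists_nat_ge (162 * (D ^ k + 1))
  refine ⟨4 * k + 1, max 6 R1, ?_⟩
  intro a b L R hR hL
  have hR6 : 6 ≤ R := (le_max_left _ _).trans hR
  have hRR : (162 * (D ^ k + 1)) ≤ (R : ℝ) := by
    have : R1 ≤ R := (le_max_right _ _).trans hR
    have h2 : (R1 : ℝ) ≤ R := by exact_mod_cast this
    exact hR1.trans h2
  have hRr : (1 : ℝ) ≤ R := by
    have : 1 ≤ R := by omega
    exact_mod_cast this
  set T : Finset (Σ q : ℕ, DirichletCharacter ℂ q × ℕ × ℕ) :=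
    (Icc 1 (9 * R)).sigma fun q => chs q ×ˢ (range (R + 1) ×ˢ Icc 1 R) with hT
  have hTc : T.card ≤ 9 * R * (9 * R * ((R + 1) * R)) := by
    rw [hT, card_sigma]
    calc ∑ q ∈ Icc 1 (9 * R), (chs q ×ˢ (range (R + 1) ×ˢ Icc 1 R)).card
        ≤ ∑ q ∈ Icc 1 (9 * R), 9 * R * ((R + 1) * R) := by
          apply sum_le_sum
          intro q hq
          rw [card_product, card_product, card_range, Nat.card_Icc, Nat.add_sub_cancel]
          exact Nat.mul_le_mul_right _ (card_chs.trans (mem_Icc.1 hq).2)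
      _ = _ := by rw [sum_const, Nat.card_Icc, Nat.add_sub_cancel, smul_eq_mul]
  have hsub : ((range L ×ˢ range L).filter fun t : ℕ × ℕ => ¬ Good ε R (al (a + t.1) (b + t.2))) ⊆
      (T.filter fun s => s.2.2.1 + s.2.2.2 ≤ R).biUnion fun s => (range L ×ˢ range L).filter (Viol ε R a b s.1 s.2.1 s.2.2.1 s.2.2.2) := by
    intro t ht
    rw [mem_filter] at ht
    obtain ⟨ht1, ht2⟩ := ht
    unfold Good at ht2
    push Not at ht2
    obtain ⟨q, hq1, hq2, ψ, M, N, hMN, hv⟩ := ht2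
    have hN : 1 ≤ N := by
      by_contra hcon
      have hN0 : N = 0 := by omega
      subst hN0
      simp at hv
    rw [mem_biUnion]
    refine ⟨⟨q, ψ, M, N⟩, ?_, ?_⟩
    · rw [mem_filter]
      refine ⟨?_, hMN⟩
      rw [hT, mem_sigma]
      refine ⟨mem_Icc.2 ⟨hq1, hq2⟩, ?_⟩
      rw [mem_product, mem_product]
      exact ⟨mem_chs hq1 ψ, mem_range.2 (show M < R + 1 by omega),
        mem_Icc.2 ⟨hN, show N ≤ R by omega⟩⟩
    · rw [mem_filter]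
      exact ⟨ht1, hv⟩
  set K : ℝ := (L : ℝ) ^ 2 * (D ^ k + 1) / ((R : ℝ) ^ ε) ^ k with hK
  have hK0 : 0 ≤ K := by positivity
  have hcard : (((range L ×ˢ range L).filter fun t : ℕ × ℕ =>
      ¬ Good ε R (al (a + t.1) (b + t.2))).card : ℝ) ≤ T.card * K := by
    have h1 : (((range L ×ˢ range L).filter fun t : ℕ × ℕ =>
        ¬ Good ε R (al (a + t.1) (b + t.2))).card : ℝ) ≤
        ∑ s ∈ T.filter fun s => s.2.2.1 + s.2.2.2 ≤ R, (((range L ×ˢ range L).filter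
          (Viol ε R a b s.1 s.2.1 s.2.2.1 s.2.2.2)).card : ℝ) := by
      have := (card_le_card hsub).trans card_biUnion_le
      exact_mod_cast this
    refine h1.trans ?_
    have h2 : ∑ s ∈ T.filter fun s => s.2.2.1 + s.2.2.2 ≤ R, (((range L ×ˢ range L).filter
          (Viol ε R a b s.1 s.2.1 s.2.2.1 s.2.2.2)).card : ℝ) ≤
          ∑ s ∈ T.filter fun s => s.2.2.1 + s.2.2.2 ≤ R, K := by
      apply sum_le_sum
      intro s hs
      rw [mem_filter, hT, mem_sigma, mem_product, mem_product] at hs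
      obtain ⟨⟨_, _, hs1, hs2⟩, hMN⟩ := hs
      exact one_set mom hD hmb hε hR6 hL a b s.2.1 (mem_Icc.1 hs2).1 hMN
    refine h2.trans ?_
    rw [sum_const, nsmul_eq_mul]
    apply mul_le_mul_of_nonneg_right _ hK0
    exact_mod_cast card_le_card (filter_subset _ _)
  refine hcard.trans ?_
  have hTr : (T.card : ℝ) ≤ 162 * (R : ℝ) ^ 4 := by
    have h1 : (T.card : ℝ) ≤ 9 * R * (9 * R * ((R + 1) * R)) := by exact_mod_cast hTc
    have h2 : (R : ℝ) + 1 ≤ 2 * R := by linarith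
    calc (T.card : ℝ) ≤ 9 * R * (9 * R * ((R + 1) * R)) := h1
      _ ≤ 9 * R * (9 * R * ((2 * R) * R)) := by gcongr
      _ = 162 * (R : ℝ) ^ 4 := by ring
  have hpow : (R : ℝ) ^ (B + 6) ≤ ((R : ℝ) ^ ε) ^ k := by
    rw [← Real.rpow_natCast ((R : ℝ) ^ ε) k, ← Real.rpow_mul (by positivity),
      ← Real.rpow_natCast (R : ℝ) (B + 6)]
    apply Real.rpow_le_rpow_of_exponent_le hRr
    push_cast
    exact hkε
  have hK1 : K ≤ (L : ℝ) ^ 2 * (D ^ k + 1) / (R : ℝ) ^ (B + 6) := by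
    rw [hK]
    apply div_le_div_of_nonneg_left (by positivity) (by positivity) hpow
  have hRp : (0 : ℝ) < R := by linarith
  calc (T.card : ℝ) * K ≤ 162 * (R : ℝ) ^ 4 * ((L : ℝ) ^ 2 * (D ^ k + 1) / (R : ℝ) ^ (B + 6)) := by
        gcongr
    _ = (L : ℝ) ^ 2 * ((162 * (D ^ k + 1)) * (R : ℝ) ^ 4) / (R : ℝ) ^ (B + 6) := by ring
    _ ≤ (L : ℝ) ^ 2 * (R * (R : ℝ) ^ 4) / (R : ℝ) ^ (B + 6) := by gcongr
    _ ≤ (L : ℝ) ^ 2 / (R : ℝ) ^ B := by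
        rw [div_le_div_iff₀ (by positivity) (by positivity)]
        have h1 : (R : ℝ) * (R : ℝ) ^ 4 * (R : ℝ) ^ B ≤ (R : ℝ) ^ (B + 6) := by
          rw [show (R : ℝ) * (R : ℝ) ^ 4 * (R : ℝ) ^ B = (R : ℝ) ^ (B + 5) by ring]
          exact pow_le_pow_right₀ hRr (by omega)
        calc (L : ℝ) ^ 2 * (R * (R : ℝ) ^ 4) * (R : ℝ) ^ B =
            (L : ℝ) ^ 2 * (R * (R : ℝ) ^ 4 * (R : ℝ) ^ B) := by ring
          _ ≤ (L : ℝ) ^ 2 * (R : ℝ) ^ (B + 6) := by gcongr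

end Pool.Agent.Q190.CC
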