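import Pool.Agent.Q62.CC.Stm

/-! Project CC (helper62), job CHA: the change of variables `s = e ^ (-2 x)`. -/

set_option autoImplicit false

open Set Filter Topology MeasureTheory
open scoped ENNReal

namespace Pool.Agent.Q190.CC.Cha

theorem im1 {a b : ℝ} (ha : 0 < a) (hab : a < b) :
    (fun x => Real.exp (-x)) '' Icc (-Real.log b) (-Real.log a) = Icc a b := by
  have hb : 0 < b := ha.trans hab
  ext y
  constructor
  · rintro ⟨x, ⟨h1, h2⟩, rfl⟩
    constructor
    · rw [← Real.log_le_iff_le_exp ha]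
      linarith
    · rw [← Real.le_log_iff_exp_le hb]
      linarith
  · rintro ⟨h1, h2⟩
    have hy : 0 < y := ha.trans_le h1
    refine ⟨-Real.log y, ⟨?_, ?_⟩, ?_⟩
    · exact neg_le_neg (Real.log_le_log hy h2)
    · exact neg_le_neg (Real.log_le_log ha h1)
    · show Real.exp (- -Real.log y) = y
      rw [neg_neg, Real.exp_log hy]

theorem im2 {a b : ℝ} (ha : 0 < a) (hab : a < b) :
    (fun x => Real.exp (-(2 * x))) '' Icc (-Real.log b) (-Real.log a) = Icc (a ^ 2) (b ^ 2) := by
  have hb : 0 < b := ha.trans hab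
  ext y
  constructor
  · rintro ⟨x, ⟨h1, h2⟩, rfl⟩
    constructor
    · rw [← Real.log_le_iff_le_exp (by positivity), Real.log_pow]
      push_cast
      linarith
    · rw [← Real.le_log_iff_exp_le (by positivity), Real.log_pow]
      push_cast
      linarith
  · rintro ⟨h1, h2⟩
    have hy : 0 < y := (by positivity : 0 < a ^ 2).trans_le h1
    have h3 := Real.log_le_log hy h2
    have h4 := Real.log_le_log (by positivity) h1
    rw [Real.log_pow] at h3 h4
    push_cast at h3 h4
    refine ⟨-(Real.log y / 2), ⟨?_, ?_⟩, ?_⟩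
    · linarith
    · linarith
    · show Real.exp (-(2 * -(Real.log y / 2))) = y
      rw [show -(2 * -(Real.log y / 2)) = Real.log y by ring, Real.exp_log hy]

theorem d1 (s : Set ℝ) (x : ℝ) : HasDerivWithinAt (fun x => Real.exp (-x)) (-Real.exp (-x)) s x := by
  have h1 : HasDerivAt (fun x : ℝ => -x) (-1) x := hasDerivAt_neg x
  have h2 := h1.exp
  rw [mul_neg_one] at h2
  exact h2.hasDerivWithinAt

theorem d2 (s : Set ℝ) (x : ℝ) :
    HasDerivWithinAt (fun x => Real.exp (-(2 * x))) (-(2 * Real.exp (-(2 * x)))) s x := by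
  have h1 : HasDerivAt (fun x : ℝ => -(2 * x)) (-2) x := by
    have h3 := ((hasDerivAt_id x).const_mul 2).neg
    rw [mul_one] at h3
    exact h3
  have h2 := h1.exp
  rw [show Real.exp (-(2 * x)) * -2 = -(2 * Real.exp (-(2 * x))) by ring] at h2
  exact h2.hasDerivWithinAt

theorem part2 {a b : ℝ} (ha : 0 < a) (hab : a < b) (G : ℝ → ℝ≥0∞) :
    ∫⁻ s in Icc (a ^ 2) (b ^ 2), G (-(Real.log s / 2)) ≤
      ENNReal.ofReal (2 * b ^ 2) * ∫⁻ x in Icc (-Real.log b) (-Real.log a), G x := by
  rw [← im2 ha hab, lintegral_image_eq_lintegral_abs_deriv_mul measurableSet_Icc (fun x _ => d2 _ x) (by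
    intro x _ y _ h
    have h1 : -(2 * x) = -(2 * y) := Real.exp_injective h
    linarith), ← lintegral_const_mul' _ _ ENNReal.ofReal_ne_top]
  refine setLIntegral_mono' measurableSet_Icc ?_
  intro x hx
  have hmem : Real.exp (-(2 * x)) ∈ Icc (a ^ 2) (b ^ 2) := by
    rw [← im2 ha hab]
    exact ⟨x, hx, rfl⟩
  have h1 : -(Real.log (Real.exp (-(2 * x))) / 2) = x := by
    rw [Real.log_exp]
    ring
  rw [h1]
  refine mul_le_mul_left (ENNReal.ofReal_le_ofReal ?_) _
  rw [abs_neg, abs_of_pos (by positivity)]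
  linarith [hmem.2]

theorem part1 {a b : ℝ} (ha : 0 < a) (hab : a < b) (f : ℝ → ℝ) (hf : MemLp f 2 (volume.restrict (Icc a b))) :
    MemLp (fun x => f (Real.exp (-x))) 2 (volume.restrict (Icc (-Real.log b) (-Real.log a))) := by
  have hm : Measurable fun x : ℝ => Real.exp (-x) := by fun_prop
  have hle : (volume.restrict (Icc (-Real.log b) (-Real.log a))).map (fun x => Real.exp (-x)) ≤
      ENNReal.ofReal a⁻¹ • volume.restrict (Icc a b) := by
    rw [Measure.le_iff]
    intro E hE
    rw [Measure.map_apply hm hE, Measure.smul_apply, smul_eq_mul, ← lintegral_indicator_one (hm hE),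
      ← lintegral_indicator_one hE]
    have h1 := lintegral_image_eq_lintegral_abs_deriv_mul (s := Icc (-Real.log b) (-Real.log a)) measurableSet_Icc
      (fun x _ => d1 _ x) (by
        intro x _ y _ h
        have h1 : -x = -y := Real.exp_injective h
        linarith) (E.indicator 1)
    rw [im1 ha hab] at h1
    rw [h1, ← lintegral_const_mul' _ _ ENNReal.ofReal_ne_top]
    refine setLIntegral_mono' measurableSet_Icc ?_
    intro x hx
    have hmem : Real.exp (-x) ∈ Icc a b := by
      rw [← im1 ha hab]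
      exact ⟨x, hx, rfl⟩
    rw [← mul_assoc, ← ENNReal.ofReal_mul (by positivity)]
    have h2 : 1 ≤ a⁻¹ * |-Real.exp (-x)| := by
      rw [abs_neg, abs_of_pos (Real.exp_pos _), inv_mul_eq_div, one_le_div ha]
      exact hmem.1
    have h3 : (1 : ℝ≥0∞) ≤ ENNReal.ofReal (a⁻¹ * |-Real.exp (-x)|) := ENNReal.one_le_ofReal.2 h2
    exact le_mul_of_one_le_left zero_le h3
  have h1 : MemLp f 2 ((volume.restrict (Icc (-Real.log b) (-Real.log a))).map (fun x => Real.exp (-x))) :=
    hf.of_measure_le_smul ENNReal.ofReal_ne_top hle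
  exact h1.comp_of_map hm.aemeasurable

end Pool.Agent.Q190.CC.Cha

namespace Pool.Agent.Q190.CC

open Pool.Agent.Q62.CC Pool.Agent.Q190.CC.Cha

theorem t_CHA : S_CHA := by
  intro a b ha hab
  exact ⟨fun f hf => part1 ha hab f hf, ENNReal.ofReal (2 * b ^ 2), ENNReal.ofReal_ne_top, part2 ha hab⟩

end Pool.Agent.Q190.CC
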